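import Pool.Agent.helper23.HB.Stmts

/-! # HB-LCL : the limit set is compact -/

open MeasureTheory ProbabilityTheory Set Filter Topology
open scoped ENNReal NNReal

namespace Pool.Agent.helper76.HB
open Pool.Agent.helper23.HB

private theorem mem_LSet_iff {τ : Lab → ℝ} {Z : Lab → ℝ → ℂ} {ζ : ℂ} :
    ζ ∈ LSet τ Z ↔ ‖ζ‖ = 1 ∧ ∀ ε : ℝ, 0 < ε → ∀ M : ℝ, ∃ (t : ℝ) (u : Lab), M ≤ t ∧
      u ∈ Alive τ t ∧ dist (Z u t) ζ < ε := by
  constructor
  · rintro ⟨h1, t, u, ht, hu, hZ⟩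
    refine ⟨h1, fun ε hε M => ?_⟩
    obtain ⟨n, hn1, hn2⟩ := ((ht.eventually_ge_atTop M).and
      ((Metric.tendsto_nhds.1 hZ) ε hε)).exists
    exact ⟨t n, u n, hn1, hu n, hn2⟩
  · rintro ⟨h1, h2⟩
    have h3 : ∀ n : ℕ, ∃ x : ℝ × Lab, (n : ℝ) ≤ x.1 ∧ x.2 ∈ Alive τ x.1 ∧
        dist (Z x.2 x.1) ζ < 1 / ((n : ℝ) + 1) := by
      intro n
      obtain ⟨t, u, h4⟩ := h2 (1 / ((n : ℝ) + 1)) (by positivity) n
      exact ⟨(t, u), h4⟩
    choose x hx using h3
    refine ⟨h1, fun n => (x n).1, fun n => (x n).2,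
      tendsto_atTop_mono (fun n => (hx n).1) tendsto_natCast_atTop_atTop, fun n => (hx n).2.1, ?_⟩
    rw [tendsto_iff_dist_tendsto_zero]
    exact squeeze_zero (fun n => dist_nonneg) (fun n => (hx n).2.2.le)
      tendsto_one_div_add_atTop_nhds_zero_nat

theorem mLCL : St_LCL := by
  intro τ Z
  refine ⟨?_, ?_⟩
  · have hsub : LSet τ Z ⊆ Metric.sphere (0 : ℂ) 1 := fun ζ hζ => by
      rw [mem_sphere_zero_iff_norm]
      exact hζ.1
    refine (isCompact_sphere (0 : ℂ) 1).of_isClosed_subset ?_ hsub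
    rw [← closure_subset_iff_isClosed]
    intro ζ hζ
    rw [mem_LSet_iff]
    constructor
    · have h1 : ζ ∈ Metric.sphere (0 : ℂ) 1 :=
        closure_minimal hsub Metric.isClosed_sphere hζ
      rwa [mem_sphere_zero_iff_norm] at h1
    · intro ε hε M
      obtain ⟨ζ', hζ', hd⟩ := Metric.mem_closure_iff.1 hζ (ε / 2) (half_pos hε)
      obtain ⟨t, u, h1, h2, h3⟩ := (mem_LSet_iff.1 hζ').2 (ε / 2) (half_pos hε) M
      refine ⟨t, u, h1, h2, ?_⟩
      have h4 := dist_triangle (Z u t) ζ' ζ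
      rw [dist_comm ζ' ζ] at h4
      linarith
  · intro O hO hLO t u d ht hu hd hZ
    by_contra hcon
    rw [not_eventually] at hcon
    obtain ⟨φ, hφ, hφO⟩ := extraction_of_frequently_atTop hcon
    obtain ⟨ζ, hζ, ψ, hψ, hlim⟩ := (isCompact_sphere (0 : ℂ) 1).tendsto_subseq
      (x := fun n => d (φ n)) (fun n => by rw [mem_sphere_zero_iff_norm]; exact hd _)
    rw [mem_sphere_zero_iff_norm] at hζ
    have h1 : ζ ∈ Oᶜ := hO.isClosed_compl.mem_of_tendsto hlim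
      (Eventually.of_forall fun n => hφO (ψ n))
    have hsub : Tendsto (fun n => φ (ψ n)) atTop atTop :=
      hφ.tendsto_atTop.comp hψ.tendsto_atTop
    have h2 : Tendsto (fun n => Z (u (φ (ψ n))) (t (φ (ψ n)))) atTop (𝓝 ζ) := by
      have h3 := (hZ.comp hsub).add hlim
      rw [zero_add] at h3
      refine h3.congr fun n => ?_
      simp only [Function.comp_apply, sub_add_cancel]
    exact h1 (hLO ⟨hζ, fun n => t (φ (ψ n)), fun n => u (φ (ψ n)), ht.comp hsub,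
      fun n => hu _, h2⟩)

end Pool.Agent.helper76.HB
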